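import Pool.Agent.Q278.Flip2
import Pool.Agent.Q278.Res

set_option autoImplicit false

/-! The exponent `f_{p,m,r} = r (m - r) (1 - p ^ 2) / (2 m)` when `r < m` and `p ≡ ± 1 (mod m)`. -/

namespace Pool.Agent.Results.MP_594717_nt.Full

open Finset Polynomial

/-- The indeterminate `q`. -/
noncomputable abbrev q : RatFunc ℚ := RatFunc.X

/-- The coefficient `c_k = (q^r; q^m)_k (q^(m-r); q^m)_k / (q^m; q^m)_k ^ 2`. -/
noncomputable def c (m r k : ℕ) : RatFunc ℚ := ∏ j ∈ range k,
  (1 - q ^ (r + j * m)) * (1 - q ^ ((m : ℤ) - r + j * m)) / (1 - q ^ ((j + 1) * m)) ^ 2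

/-- The left side of `(*)`, a polynomial in `x` over `ℚ(q)`. -/
noncomputable def S (p m r : ℕ) : (RatFunc ℚ)[X] := ∑ k ∈ range p, C (c m r k) * X ^ k

/-- The sum on the right side of `(*)`, a polynomial in `x` over `ℚ(q)`. -/
noncomputable def T (p m r : ℕ) : (RatFunc ℚ)[X] :=
  ∑ k ∈ range p, C (c m r k * q ^ (m * k)) * ∏ j ∈ range k, (1 - C (q ^ (j * m)) * X)

/-- `[p] = 1 + q + ⋯ + q ^ (p - 1)`. -/
noncomputable def qp (p : ℕ) : ℚ[X] := ∑ i ∈ range p, X ^ i

/-- `A ≡ B (mod [p]²)`: the numerator of every coefficient of `A - B`, written as a reduced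
fraction, is divisible by `[p]²` (so that `A - B = [p]² C` where the coefficients of `C` have
denominators coprime to `[p]`). -/
def Cong (p : ℕ) (A B : (RatFunc ℚ)[X]) : Prop := ∀ j, qp p ^ 2 ∣ RatFunc.num ((A - B).coeff j)

/-- `⟨a⟩_p`, the least nonnegative residue modulo `p` of a rational number `a`. -/
def res (p : ℕ) (a : ℚ) : ℕ := ((a.num : ZMod p) * ((a.den : ZMod p))⁻¹).val

/-- The congruence `(*)` with the exponent `f`. -/
def Holds (p m r : ℕ) (f : ℤ) : Prop :=
  Cong p (S p m r) (C ((-1) ^ (res p (-(r : ℚ) / m)) * q ^ f) * T p m r)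

theorem ex_two {p m N : ℕ} {r : ℤ} (hp : p.Prime) (hp2 : p ≠ 2) :
    2 * (-Q278.Flip.ex p m r N) = -(m * N * (N + 1)) + (2 * N - (p - 1)) * (r + m * N) := by
  unfold Q278.Flip.ex
  have e1 : (2 : ℤ) * ((N * (N + 1) / 2 : ℕ) : ℤ) = N * (N + 1) := by
    have : 2 * (N * (N + 1) / 2) = N * (N + 1) :=
      Nat.mul_div_cancel' (even_iff_two_dvd.1 (Nat.even_mul_succ_self N))
    exact_mod_cast this
  have e2 : (2 : ℤ) * (((p - 1) / 2 : ℕ) : ℤ) = p - 1 := by
    have hodd : p % 2 = 1 := by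
      rcases hp.eq_two_or_odd with h3 | h3
      · exact absurd h3 hp2
      · exact h3
    omega
  linear_combination (-(m : ℤ)) * e1 - (r + m * N) * e2

theorem result : ∀ p m r : ℕ, p.Prime → p ≠ 2 → 1 ≤ r → r < m →
    ((p : ℤ) ≡ 1 [ZMOD m] ∨ (p : ℤ) ≡ -1 [ZMOD m]) →
    ∃ f₀ : ℤ, 2 * m * f₀ = r * (m - r) * (1 - p ^ 2) ∧ ∀ f : ℤ, Holds p m r f ↔ f = f₀ := by
  intro p m r hp hp2 hr hrm hmod
  have hm0 : (m : ℤ) ≠ 0 := by omega
  have hmp : (1 : ℤ) ≤ m := by omega
  have hpos := hp.pos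
  have hpm : ¬ p ∣ m := by
    intro hd
    have hd' : (p : ℤ) ∣ m := Int.natCast_dvd_natCast.2 hd
    rcases hmod with h | h
    · have h1 : (m : ℤ) ∣ 1 - p := (Int.modEq_iff_dvd.1 h)
      have h2 : (p : ℤ) ∣ 1 := by
        have h3 := hd'.trans h1
        have := dvd_add h3 (dvd_refl (p : ℤ))
        simpa using this
      have := Int.le_of_dvd (by norm_num) h2
      have := hp.two_le
      omega
    · have h1 : (m : ℤ) ∣ -1 - p := (Int.modEq_iff_dvd.1 h)
      have h2 : (p : ℤ) ∣ 1 := by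
        have h3 := hd'.trans h1
        have := dvd_add h3 (dvd_refl (p : ℤ))
        simpa using this
      have := Int.le_of_dvd (by norm_num) h2
      have := hp.two_le
      omega
  rcases hmod with h | h
  · -- `p = 1 + m k`, `N = r k`
    obtain ⟨k, hk⟩ : (m : ℤ) ∣ p - 1 := (Int.modEq_iff_dvd.1 h.symm)
    have hk0 : 0 ≤ k := by
      by_contra hneg
      have : (m : ℤ) * k < 0 := mul_neg_of_pos_of_neg (by omega) (by omega)
      omega
    obtain ⟨k, rfl⟩ := Int.eq_ofNat_of_zero_le hk0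
    have hN : r * k < p := by
      have h1 : (r : ℤ) * k ≤ m * k := mul_le_mul_of_nonneg_right (by omega) (by positivity)
      have : ((r * k : ℕ) : ℤ) < p := by push_cast; omega
      exact_mod_cast this
    have hd : (p : ℤ) ∣ r + m * ((r * k : ℕ) : ℤ) := ⟨r, by push_cast; linear_combination (-r : ℤ) * hk⟩
    refine ⟨-Q278.Flip.ex p m r (r * k), ?_, fun f => ?_⟩
    · have h1 := ex_two (m := m) (N := r * k) (r := r) hp hp2
      have hp' : (p : ℤ) = 1 + m * k := by linear_combination hk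
      push_cast at h1
      rw [hp'] at h1 ⊢
      linear_combination (m : ℤ) * h1
    · have h1 := Q278.Flip.main p m r hp hp2 hpm hN hd f
      have e : res p (-(r : ℚ) / m) = r * k := Q278.Res.res_unique (r := r) hp hpm hN hd
      unfold Holds
      rw [e]
      exact h1
  · -- `p = m k - 1`, `N = p - r k`
    obtain ⟨k, hk⟩ : (m : ℤ) ∣ p - (-1) := (Int.modEq_iff_dvd.1 h.symm)
    have hk0 : 0 ≤ k := by
      by_contra hneg
      have : (m : ℤ) * k < 0 := mul_neg_of_pos_of_neg (by omega) (by omega)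
      omega
    obtain ⟨k, rfl⟩ := Int.eq_ofNat_of_zero_le hk0
    have hk1 : 1 ≤ k := by
      rcases Nat.eq_zero_or_pos k with h0 | h0
      · subst h0; simp at hk; omega
      · exact h0
    have hrk : r * k ≤ p := by
      have h1 : ((r : ℤ) + 1) * k ≤ m * k := mul_le_mul_of_nonneg_right (by omega) (by positivity)
      have h2 : ((r * k : ℕ) : ℤ) ≤ p := by
        push_cast
        have h3 : ((r : ℤ) + 1) * k = r * k + k := by ring
        have : (1 : ℤ) ≤ k := by exact_mod_cast hk1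
        linarith
      exact_mod_cast h2
    have hN : p - r * k < p := by
      have : 1 ≤ r * k := Nat.one_le_iff_ne_zero.2 (Nat.mul_ne_zero (by omega) (by omega))
      omega
    have hd : (p : ℤ) ∣ r + m * ((p - r * k : ℕ) : ℤ) := ⟨m - r, by
      rw [Nat.cast_sub hrk]; push_cast
      linear_combination (r : ℤ) * hk⟩
    refine ⟨-Q278.Flip.ex p m r (p - r * k), ?_, fun f => ?_⟩
    · have h1 := ex_two (m := m) (N := p - r * k) (r := r) hp hp2
      have hp' : (p : ℤ) = m * k - 1 := by linear_combination hk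
      rw [Nat.cast_sub hrk] at h1
      push_cast at h1
      rw [hp'] at h1 ⊢
      linear_combination (m : ℤ) * h1
    · have h1 := Q278.Flip.main p m r hp hp2 hpm hN hd f
      have e : res p (-(r : ℚ) / m) = p - r * k := Q278.Res.res_unique (r := r) hp hpm hN hd
      unfold Holds
      rw [e]
      exact h1

end Pool.Agent.Results.MP_594717_nt.Full
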